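import Pool.Agent.H14.FRU.Stmts

/-!
FRU, module AE2: the functions `A` in the second extension.
-/

set_option linter.unusedVariables false
set_option linter.unusedSectionVars false
set_option synthInstance.maxSize 100000

namespace SW.FU

section
variable {M : Type} [SetStr M] [ZF M] {F : FPoset M} {G : M → Prop} [ZF (Ext F G)]

theorem ae2_snd (hG : Gen F G) {x y : Ext F G} {z : M} (h : opair x y = emb F G z) :
    ∃ c, y = emb F G c := by
  have h1 : E (upair x y) (emb F G z) := by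
    rw [← h]
    unfold opair
    rw [mem_upair]
    exact Or.inr rfl
  obtain ⟨u, _, hu⟩ := (embF hG).trans _ _ h1
  have h2 : E y (emb F G u) := by
    rw [← hu, mem_upair]
    exact Or.inr rfl
  obtain ⟨c, _, hc⟩ := (embF hG).trans _ _ h2
  exact ⟨c, hc⟩

end

theorem fru_ae2 : AE2Stmt := by
  intro M _ _ _ w L U A R G hK hG _ S b hS hb
  have em := embF hG
  have tr := traF hG
  obtain ⟨S0, hS0, rfl⟩ := em.trans _ _ hS
  obtain ⟨b0, hb0, rfl⟩ := em.trans _ _ hb
  obtain ⟨n, hn, hA⟩ := hK.tot S0 b0 hS0 hb0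
  have hop : ∀ m, Et (emb (PG2 w L U A) G A) (emb (PG2 w L U A) G S0) (emb (PG2 w L U A) G b0)
      (emb (PG2 w L U A) G m) ↔ Et A S0 b0 m := by
    intro m
    unfold Et
    rw [← tr.opair, ← tr.opair, em.mem]
  refine ⟨emb (PG2 w L U A) G n, ?_, (hop n).2 hA, fun n' h' => ?_⟩
  · rw [← tr.om, em.mem]
    exact hn
  · obtain ⟨z, hz, h1⟩ := em.trans _ _ h'
    obtain ⟨x, hx⟩ := ae2_snd hG h1
    obtain ⟨m, rfl⟩ := ae2_snd hG hx
    rw [hK.uq S0 b0 m n ((hop m).1 h') hA]

end SW.FU
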