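import Pool.Agent.H14.FRU.Stmts

/-!
FRU, module DF2: different members of `L` get different reals.
-/

set_option linter.unusedVariables false
set_option linter.unusedSectionVars false
set_option synthInstance.maxSize 100000

namespace SW.FU

section
variable {M : Type} [SetStr M] [ZF M]

theorem df2_fs (a : M) : Fnt (sing a) := by
  have e : sing a = ins a emp := ext fun z => by
    rw [mem_sing, mem_ins]
    exact ⟨fun h => Or.inr h, fun h => h.resolve_left (not_mem_emp _)⟩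
  rw [e]
  exact finF.ins finF.emp

/-- the new entries -/
noncomputable def df2T (d n : M) : M :=
  sep (prod (prod d (prod d (sing n))) (sing (opair (suc n) emp)))
    (fun z => ∃ δ α, E α δ ∧ z = opair (opair δ (opair α n)) (opair (suc n) emp))

theorem df2_memT {d n z : M} : E z (df2T d n) ↔ ∃ δ α, E δ d ∧ E α d ∧ E α δ ∧
    z = opair (opair δ (opair α n)) (opair (suc n) emp) := by
  unfold df2T
  rw [mem_sep' inferInstance]
  constructor
  · rintro ⟨h1, δ, α, h2, rfl⟩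
    rw [mem_prod, mem_prod, mem_prod] at h1
    exact ⟨δ, α, h1.1.1, h1.1.2.1, h2, rfl⟩
  · rintro ⟨δ, α, h1, h2, h3, rfl⟩
    refine ⟨?_, δ, α, h3, rfl⟩
    rw [mem_prod, mem_prod, mem_prod, mem_sing, mem_sing]
    exact ⟨⟨h1, h2, rfl⟩, rfl⟩

theorem df2_fT {d n : M} (hd : Fnt d) : Fnt (df2T d n) :=
  finF.sub (finF.prod (finF.prod hd (finF.prod hd (df2_fs n))) (df2_fs _))
    fun z hz => by
      unfold df2T at hz
      rw [mem_sep' inferInstance] at hz
      exact hz.1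

theorem df2_Tv {t d n δ α a k F : M} : Tv (bun t (df2T d n)) δ α a k F ↔
    Tv t δ α a k F ∨ (E δ d ∧ E α d ∧ E α δ ∧ a = n ∧ k = suc n ∧ F = emp) := by
  unfold Tv
  rw [mem_bun, df2_memT]
  refine or_congr_right ?_
  constructor
  · rintro ⟨δ', α', h1, h2, h3, h4⟩
    rw [opair_inj, opair_inj, opair_inj, opair_inj] at h4
    obtain ⟨⟨rfl, rfl, h5⟩, h6, h7⟩ := h4
    exact ⟨h1, h2, h3, h5, h6, h7⟩
  · rintro ⟨h1, h2, h3, rfl, rfl, rfl⟩
    exact ⟨δ, α, h1, h2, h3, rfl⟩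

theorem df2_Rv {r S n T i : M} : Rv (ins (opair S n) r) T i ↔ Rv r T i ∨ (T = S ∧ i = n) := by
  unfold Rv
  rw [mem_ins, opair_inj]

theorem df2_suc {n : M} (hn : E n om) : E (suc n) om := by
  exact suc_mem_om hn

end

theorem fru_df2 (h : UF2Stmt) : DF2Stmt := by
  intro M _ _ w L U A R p S S' hK hp hS hS' hne
  have hcp := (mem_P2.1 hp).2
  obtain ⟨h0, ⟨g1, g2⟩, ⟨d1, d2⟩, n1, ⟨r1, r2⟩, ⟨j1, j2, j3, j4⟩, ⟨t1, t2, t3, t4⟩, l1⟩ := hcp
  have hnn : ∀ {x : M}, E x (cn p) → E x (suc (cn p)) := fun hx => mem_suc.2 (Or.inl hx)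
  have hns : E (cn p) (suc (cn p)) := mem_suc.2 (Or.inr rfl)
  have hno : ∀ {δ α a k F : M}, Tv (ct p) δ α a k F → E a (cn p) := by
    intro δ α a k F ht
    obtain ⟨δ', α', a', k', F', _, _, _, ha, _, _, he⟩ := t2 _ ht
    rw [opair_inj, opair_inj, opair_inj] at he
    rw [he.1.2.2]
    exact ha
  have hnr : ∀ {T i : M}, Rv (cr p) T i → E i (cn p) := by
    intro T i hr
    obtain ⟨T', i', _, hi, he⟩ := r2 _ hr
    rw [opair_inj] at he
    rw [he.2]
    exact hi
  let q : M := pk (cg p) (cd p) (suc (cn p)) (ins (opair S (cn p)) (cr p)) (cj p)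
    (bun (ct p) (df2T (cd p) (cn p)))
  have q1 : cg q = cg p := cg_pk _ _ _ _ _ _
  have q2 : cd q = cd p := cd_pk _ _ _ _ _ _
  have q3 : cn q = suc (cn p) := cn_pk _ _ _ _ _ _
  have q4 : cr q = ins (opair S (cn p)) (cr p) := cr_pk _ _ _ _ _ _
  have q5 : cj q = cj p := cj_pk _ _ _ _ _ _
  have q6 : ct q = bun (ct p) (df2T (cd p) (cn p)) := ct_pk _ _ _ _ _ _
  have hq : Cn2 w L A q := by
    unfold Cn2
    rw [q1, q2, q3, q4, q5, q6]
    refine ⟨rfl, ⟨g1, g2⟩, ⟨d1, d2⟩, df2_suc n1, ⟨finF.ins r1, ?_⟩, ⟨j1, j2, j3, j4⟩,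
      ⟨finF.bun t1 (df2_fT d1), ?_, ?_, ?_⟩, ?_⟩
    · intro z hz
      rw [mem_ins] at hz
      rcases hz with hz | hz
      · obtain ⟨T, i, hT, hi, he⟩ := r2 z hz
        exact ⟨T, i, hT, hnn hi, he⟩
      · exact ⟨S, cn p, hS, hns, hz⟩
    · intro z hz
      rw [mem_bun] at hz
      rcases hz with hz | hz
      · obtain ⟨δ, α, a, k, F, h1, h2, h3, h4, h5, h6, h7⟩ := t2 z hz
        exact ⟨δ, α, a, k, F, h1, h2, h3, hnn h4, mem_suc.2 (Or.inl h5), h6, h7⟩
      · obtain ⟨δ, α, h1, h2, h3, h4⟩ := df2_memT.1 hz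
        exact ⟨δ, α, cn p, suc (cn p), emp, h1, h2, h3, hns, mem_suc.2 (Or.inr rfl),
          fun z hz => absurd hz (not_mem_emp _), h4⟩
    · intro δ α a h1 h2 h3 h4
      rw [mem_suc] at h4
      rcases h4 with h4 | h4
      · obtain ⟨k, F, h5⟩ := t3 δ α a h1 h2 h3 h4
        exact ⟨k, F, df2_Tv.2 (Or.inl h5)⟩
      · exact ⟨suc (cn p), emp, df2_Tv.2 (Or.inr ⟨h1, h2, h3, h4, rfl, rfl⟩)⟩
    · intro δ α a k F k' F' h1 h2
      rw [df2_Tv] at h1 h2
      rcases h1 with h1 | ⟨_, _, _, h1, h3, h4⟩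
      · rcases h2 with h2 | ⟨_, _, _, h2, _⟩
        · exact t4 δ α a k F k' F' h1 h2
        · have := hno h1
          rw [h2] at this
          exact absurd this (not_mem_self _)
      · rcases h2 with h2 | ⟨_, _, _, h2, h5, h6⟩
        · have := hno h2
          rw [h1] at this
          exact absurd this (not_mem_self _)
        · rw [h3, h4, h5, h6]
          exact ⟨rfl, rfl⟩
    · intro T α a h1 h2 h3
      exact hnn (l1 T α a h1 h2 h3)
  have hU : E q (P2 w L U A) := mem_P2.2 ⟨Or.inl ((h M w L U A R hK).2.2.1 q hq), hq⟩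
  refine ⟨q, cn p, hU, ?_, ?_, ?_⟩
  · unfold Le2
    rw [q1, q2, q3, q4, q5, q6]
    refine ⟨Sub.refl _, Sub.refl _, fun x hx => hnn hx, Sub.refl _,
      fun z hz => mem_bun.2 (Or.inl hz), ?_, ?_, ?_⟩
    · intro T i hT hi
      rw [df2_Rv]
      constructor
      · rintro (h1 | ⟨_, h1⟩)
        · exact h1
        · rw [h1] at hi
          exact absurd hi (not_mem_self _)
      · exact fun h1 => Or.inl h1
    · intro δ α a k F hδ h1 h2
      rw [df2_Tv] at h1
      rcases h1 with h1 | ⟨_, _, _, _, h1, _⟩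
      · exact absurd h1 h2
      · rw [h1]
        exact fun x hx => hnn hx
    · intro δ α T a k F m hδ hα hα'
      exact absurd hα hα'
  · rw [q3]
    exact hns
  · rw [q4, df2_Rv, df2_Rv]
    intro he
    have h1 := he.1 (Or.inr ⟨rfl, rfl⟩)
    rcases h1 with h1 | h1
    · exact absurd (hnr h1) (not_mem_self _)
    · exact hne h1.1.symm

end SW.FU
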