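import Pool.Agent.H14.FRU.Stmts

/-!
FRU, module MX1: the largest system of names.
-/

set_option linter.unusedVariables false
set_option linter.unusedSectionVars false
set_option synthInstance.maxSize 100000

namespace SW.FU

section
variable {M : Type} [SetStr M] [ZF M]

theorem mx1_img {a : M} (h : Cb a) : Img om a := by
  obtain ⟨f, h1, h2⟩ := h
  refine ⟨sep (prod om a) (fun z => ∃ n y, z = opair n y ∧ E (opair y n) f), fun y hy => ?_⟩
  obtain ⟨n, hn, hf⟩ := h1 y hy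
  refine ⟨n, hn, ?_⟩
  unfold app
  symm
  apply the_eq
  · rw [mem_sep' inferInstance]
    exact ⟨mem_prod.2 ⟨hn, hy⟩, n, y, rfl, hf⟩
  · intro z hz
    rw [mem_sep' inferInstance] at hz
    obtain ⟨h3, n', y', h4, h5⟩ := hz
    rw [mem_prod] at h3
    rw [opair_inj] at h4
    obtain ⟨rfl, rfl⟩ := h4
    exact h2 _ _ _ h3.2 hy hn h5 hf

theorem mx1_sk {w I J K : M} (hIJ : Sub I J) (h : Sk1 w I K) : Sk1 w J K := by
  intro t ht
  obtain ⟨u, q, e, hq⟩ := h t ht
  refine ⟨u, q, e, fun z hz => ?_⟩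
  obtain ⟨a, b, ha, hb, rfl⟩ := mem_prod'.1 (hq z hz)
  rw [mem_prod]
  refine ⟨?_, hb⟩
  rw [mem_ins] at ha ⊢
  rcases ha with ha | ha
  · exact Or.inl (hIJ _ ha)
  · exact Or.inr ha

/-- the set of all systems of names in `H` -/
noncomputable def mx1S (w H : M) : M :=
  sep (pow H) (fun J => ¬ E emp J ∧ ∀ K : M, E K J → Sk1 w J K)

theorem mem_mx1S {w H J : M} : E J (mx1S w H) ↔ Sub J H ∧ ¬ E emp J ∧
    ∀ K : M, E K J → Sk1 w J K := by
  unfold mx1S
  rw [mem_sep' inferInstance, mem_pow]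

end

theorem fru_mx1 (hB : BITStmt) : MX1Stmt := by
  intro M _ _ w hw
  obtain ⟨Z, tz, hZ⟩ := hB M (om : M) ⟨emp, mem_om.2 fun z hz => hz.1⟩
  have eZ : E (emp : M) Z := hZ emp (fun z hz => absurd hz (not_mem_emp z))
    ⟨emp, fun y hy => absurd hy (not_mem_emp y)⟩
  obtain ⟨H, th, hH⟩ := hB M Z ⟨emp, eZ⟩
  have bs : Bs w Z := ⟨hw, tz, fun a ha hc => hZ a ha (mx1_img hc)⟩
  set I : M := sUn (mx1S w H) with hI
  have memI : ∀ {K : M}, E K I ↔ ∃ J, E J (mx1S w H) ∧ E K J := by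
    intro K; rw [hI, mem_sUn]
  have subI : ∀ {J : M}, E J (mx1S w H) → Sub J I := fun hJ K hK => memI.2 ⟨_, hJ, hK⟩
  have hempI : ¬ E emp I := by
    intro h
    obtain ⟨J, hJ, h⟩ := memI.1 h
    exact (mem_mx1S.1 hJ).2.1 h
  have hsk : ∀ K, E K I → Sk1 w I K := by
    intro K hK
    obtain ⟨J, hJ, h⟩ := memI.1 hK
    exact mx1_sk (subI hJ) ((mem_mx1S.1 hJ).2.2 K h)
  have hsub : Sub I H := by
    intro K hK
    obtain ⟨J, hJ, h⟩ := memI.1 hK
    exact (mem_mx1S.1 hJ).1 K h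
  refine ⟨Z, H, I, bs, th, hH, hsub, hempI, hsk, ?_⟩
  intro K hKH hKS hKe
  have hIJ : Sub I (ins K I) := fun x hx => mem_ins.2 (Or.inl hx)
  have hJ : E (ins K I) (mx1S w H) := by
    rw [mem_mx1S]
    refine ⟨?_, ?_, ?_⟩
    · intro x hx
      rw [mem_ins] at hx
      rcases hx with hx | rfl
      · exact hsub x hx
      · exact hKH
    · rw [mem_ins]
      rintro (h | h)
      · exact hempI h
      · exact hKe h.symm
    · intro x hx
      rw [mem_ins] at hx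
      rcases hx with hx | rfl
      · exact mx1_sk hIJ (hsk x hx)
      · exact mx1_sk hIJ hKS
  exact subI hJ K (mem_ins.2 (Or.inr rfl))

end SW.FU
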