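import Pool.Agent.H14.FRU.Stmts

/-!
FRU, module UF2: closure properties of the set `U` in the first extension.
-/

set_option linter.unusedVariables false
set_option linter.unusedSectionVars false
set_option synthInstance.maxSize 100000

namespace SW.FU

section
variable {M : Type} [SetStr M] [ZF M]

theorem uf2_upair {U a b : M} (h : ∀ c, Fnt c → Sub c U → E c U) (ha : E a U) (hb : E b U) :
    E (upair a b) U := by
  have e : upair a b = ins b (ins a emp) := ext fun z => by
    rw [mem_upair, mem_ins, mem_ins]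
    constructor
    · rintro (h | h)
      · exact Or.inl (Or.inr h)
      · exact Or.inr h
    · rintro ((h | h) | h)
      · exact absurd h (not_mem_emp _)
      · exact Or.inl h
      · exact Or.inr h
  refine h _ ?_ ?_
  · rw [e]
    exact finF.ins (finF.ins finF.emp)
  · intro z hz
    rw [mem_upair] at hz
    rcases hz with hz | hz
    · rw [hz]; exact ha
    · rw [hz]; exact hb

theorem uf2_opair {U a b : M} (h : ∀ c, Fnt c → Sub c U → E c U) (ha : E a U) (hb : E b U) :
    E (opair a b) U := by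
  unfold opair sing
  exact uf2_upair h (uf2_upair h ha ha) (uf2_upair h ha hb)

end

theorem fru_uf2 (h : WFStmt) : UF2Stmt := by
  intro M _ _ w L U A R hK
  have hw := h M w hK.w1
  have hop : ∀ a b, E a U → E b U → E (opair a b) U := fun a b ha hb => uf2_opair hK.fnt ha hb
  have hom : Sub om U := hw.om.trans hK.sw
  have hcn : ∀ p, Cn2 w L A p → E p U := by
    intro p hp
    obtain ⟨h0, ⟨g1, g2⟩, ⟨d1, d2⟩, n1, ⟨r1, r2⟩, ⟨j1, j2, _⟩, ⟨t1, t2, _⟩, _⟩ := hp
    have hg : ∀ {S}, E S (cg p) → E S U := fun hS => hK.sL _ (g2 _ hS)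
    have hd : ∀ {b}, E b (cd p) → E b U := fun hb => hK.sw _ (d2 _ hb)
    have hn : ∀ {i}, E i (cn p) → E i om := fun hi => Trans_om _ n1 _ hi
    rw [h0]
    unfold pk
    refine hop _ _ (hK.fnt _ g1 fun S hS => hg hS) (hop _ _ (hK.fnt _ d1 fun b hb => hd hb)
      (hop _ _ (hom _ n1) (hop _ _ (hK.fnt _ r1 ?_) (hop _ _ (hK.fnt _ j1 ?_)
      (hK.fnt _ t1 ?_)))))
    · intro z hz
      obtain ⟨S, i, hS, hi, rfl⟩ := r2 z hz
      exact hop _ _ (hg hS) (hom _ (hn hi))
    · intro z hz
      obtain ⟨S, α, m, hS, hα, hm, rfl⟩ := j2 z hz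
      exact hop _ _ (hop _ _ (hg hS) (hd hα)) (hom _ hm)
    · intro z hz
      obtain ⟨δ, α, a, k, F, hδ, hα, _, ha, hk, hF, rfl⟩ := t2 z hz
      have hk' : E k om := by
        rw [mem_suc] at hk
        rcases hk with hk | hk
        · exact hn hk
        · rw [hk]; exact n1
      refine hop _ _ (hop _ _ (hd hδ) (hop _ _ (hd hα) (hom _ (hn ha)))) (hop _ _ (hom _ hk') ?_)
      exact hK.fnt _ (finF.sub (finF.nat hk') hF) fun x hx => hom _ (Trans_om _ hk' _ (hF _ hx))
  exact ⟨hop, hom, hcn, fun p hp => hcn p (mem_P2.1 hp).2⟩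

end SW.FU
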